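import Pool.Agent.TH970.GB.Step
import Pool.Agent.TH970.GB.Sup

/-! Lower bounds for the growth exponent of best approximation denominators in all dimensions. -/

set_option autoImplicit false

open Filter Pool.Agent.TH970.GB

namespace Pool.Agent.Results.MP_7453a1_nt.AllDimensions

variable {m n : ℕ}

/-- `Θ x` is not an integer vector for any nonzero integer vector `x`. -/
def Star (Θ : Matrix (Fin n) (Fin m) ℝ) : Prop :=
  ∀ x : Fin m → ℤ, x ≠ 0 → ∀ y : Fin n → ℤ,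
    Θ.mulVec (fun i => (x i : ℝ)) ≠ fun j => (y j : ℝ)

/-- The vectors `z 1, z 2, …` are the best approximation vectors of `Θ` (one from each pair `±z`)
in order of increasing `|x|`. -/
def IsEnumeration (N1 : (Fin m → ℝ) → ℝ) (N2 : (Fin n → ℝ) → ℝ) (Θ : Matrix (Fin n) (Fin m) ℝ)
    (z : ℕ → (Fin m → ℤ) × (Fin n → ℤ)) : Prop :=
  (∀ ν, 1 ≤ ν → IsBest N1 N2 Θ (z ν)) ∧
  (∀ i j, 1 ≤ i → i < j → N1 (cv (z i).1) < N1 (cv (z j).1)) ∧
  (∀ v, IsBest N1 N2 Θ v → ∃ ν, 1 ≤ ν ∧ (v = z ν ∨ v = -z ν))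

/-- The number `g`: the infimum of `G(Θ) = liminf M_ν^(1/ν)` over all `Θ` with the property
`Star`. -/
noncomputable def g (N1 : (Fin m → ℝ) → ℝ) (N2 : (Fin n → ℝ) → ℝ) : EReal :=
  sInf {G : EReal | ∃ Θ : Matrix (Fin n) (Fin m) ℝ, Star Θ ∧
    ∃ z : ℕ → (Fin m → ℤ) × (Fin n → ℤ), IsEnumeration N1 N2 Θ z ∧
      G = liminf (fun ν : ℕ => ((N1 (cv (z ν).1) ^ (1 / (ν : ℝ)) : ℝ) : EReal)) atTop}

variable {N1 : (Fin m → ℝ) → ℝ} {N2 : (Fin n → ℝ) → ℝ}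

theorem g_ge (h1 : IsNorm N1) (K : ℕ) (hK : 1 ≤ K) (c : ℝ) (hc : 1 ≤ c)
    (hstep : ∀ (Θ : Matrix (Fin n) (Fin m) ℝ) (z : ℕ → (Fin m → ℤ) × (Fin n → ℤ)),
      IsEnumeration N1 N2 Θ z → ∀ ν, 1 ≤ ν →
        c * N1 (cv (z ν).1) ≤ N1 (cv (z (ν + K)).1)) :
    ((c ^ (1 / (K : ℝ)) : ℝ) : EReal) ≤ g N1 N2 := by
  apply le_sInf
  rintro G ⟨Θ, _, z, hz, rfl⟩
  apply growth_ge (fun ν => N1 (cv (z ν).1)) K hK c hc
  · intro ν hν
    exact len_pos h1 (hz.1 ν hν)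
  · intro i j hi hij
    rcases Nat.eq_or_lt_of_le hij with h | h
    · rw [h]
    · exact (hz.2.1 i j hi h).le
  · exact hstep Θ z hz

theorem le_of_lt_or (N : ℕ → ℝ) (hM : ∀ i j, 1 ≤ i → i < j → N i < N j) (i j : ℕ) (hi : 1 ≤ i)
    (hij : i ≤ j) : N i ≤ N j := by
  rcases Nat.eq_or_lt_of_le hij with h | h
  · rw [h]
  · exact (hM i j hi h).le

/-- Lower bounds for `g`: for arbitrary norms; for a norm on `ℝ^m` with the parallelogram law;
for `m = 1`; and for the sup norm on `ℝ^m`. -/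
theorem result (m n : ℕ) (hm : 1 ≤ m) (hn : 1 ≤ n) (N1 : (Fin m → ℝ) → ℝ)
    (N2 : (Fin n → ℝ) → ℝ) (h1 : IsNorm N1) (h2 : IsNorm N2) :
    (((2 : ℝ) ^ (1 / (((3 ^ (m + n) - 1) / 2 : ℕ) : ℝ)) : ℝ) : EReal) ≤ g N1 N2 ∧
    ((∀ x y, N1 (x + y) ^ 2 + N1 (x - y) ^ 2 = 2 * (N1 x ^ 2 + N1 y ^ 2)) →
      ((Real.sqrt 3 ^ (1 / ((2 ^ (m + n) - 1 : ℕ) : ℝ)) : ℝ) : EReal) ≤ g N1 N2) ∧
    (m = 1 → (((3 : ℝ) ^ (1 / ((2 ^ (n + 1) - 1 : ℕ) : ℝ)) : ℝ) : EReal) ≤ g N1 N2) ∧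
    ((∀ x, N1 x = ‖x‖) →
      (((2 : ℝ) ^ (1 / ((2 ^ (m - 1) * (2 ^ (m + n) - 1) : ℕ) : ℝ)) : ℝ) : EReal) ≤ g N1 N2) := by
  have hK2 : 1 ≤ 2 ^ (m + n) - 1 := by
    have : 2 ^ 1 ≤ 2 ^ (m + n) := Nat.pow_le_pow_right (by norm_num) (by omega)
    omega
  refine ⟨?_, ?_, ?_, ?_⟩
  · apply g_ge h1 _ _ 2 (by norm_num)
    · intro Θ z hz ν hν
      exact (step3 h1 h2 z hz.1 hz.2.1 ν hν).le
    · have : 3 ^ 1 ≤ 3 ^ (m + n) := Nat.pow_le_pow_right (by norm_num) (by omega)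
      omega
  · intro hpar
    apply g_ge h1 _ hK2 (Real.sqrt 3) (by
      rw [Real.one_le_sqrt]; norm_num)
    intro Θ z hz ν hν
    obtain ⟨i, j, hi, hij, hj, ha, hb⟩ := step2 h1 h2 z hz.1 hz.2.1 ν hν
    have hM := le_of_lt_or (fun ν => N1 (cv (z ν).1)) hz.2.1
    have m1 : N1 (cv (z ν).1) ≤ N1 (cv (z i).1) := hM ν i hν hi
    have m2 : N1 (cv (z j).1) ≤ N1 (cv (z (ν + (2 ^ (m + n) - 1))).1) := hM j _ (by omega) hj
    have p0 := h1.nonneg (cv (z i).1)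
    have p1 := h1.nonneg (cv (z j).1)
    have hp := hpar (cv (z j).1) (cv (z i).1)
    have s3 : Real.sqrt 3 ^ 2 = 3 := Real.sq_sqrt (by norm_num)
    have s0 : 0 ≤ Real.sqrt 3 := Real.sqrt_nonneg 3
    have q1 : (Real.sqrt 3 * N1 (cv (z i).1)) ^ 2 ≤ N1 (cv (z j).1) ^ 2 := by
      rw [mul_pow, s3]
      nlinarith
    have q2 : Real.sqrt 3 * N1 (cv (z i).1) ≤ N1 (cv (z j).1) := by
      by_contra hlt
      push Not at hlt
      nlinarith
    have q3 : Real.sqrt 3 * N1 (cv (z ν).1) ≤ Real.sqrt 3 * N1 (cv (z i).1) :=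
      mul_le_mul_of_nonneg_left m1 s0
    linarith
  · intro hm1
    subst hm1
    have hK2' : 1 ≤ 2 ^ (n + 1) - 1 := by rw [add_comm] at hK2; exact hK2
    apply g_ge h1 _ hK2' 3 (by norm_num)
    intro Θ z hz ν hν
    obtain ⟨i, j, hi, hij, hj, ha, hb⟩ := step2 h1 h2 z hz.1 hz.2.1 ν hν
    rw [add_comm 1 n] at hj
    have hM := le_of_lt_or (fun ν => N1 (cv (z ν).1)) hz.2.1
    have m1 : N1 (cv (z ν).1) ≤ N1 (cv (z i).1) := hM ν i hν hi
    have m2 : N1 (cv (z j).1) ≤ N1 (cv (z (ν + (2 ^ (n + 1) - 1))).1) := hM j _ (by omega) hj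
    have hone : ∀ x : Fin 1 → ℝ, N1 x = |x 0| * N1 (fun _ => 1) := by
      intro x
      rw [← h1.smul]
      congr 1
      funext k
      rw [Subsingleton.elim k 0]
      simp
    set e := N1 (fun _ => 1) with he
    have he0 : 0 ≤ e := h1.nonneg _
    rw [hone, hone (_ - _)] at ha
    rw [hone, hone (_ + _)] at hb
    rw [hone (cv (z i).1), hone (cv (z ν).1)] at m1
    rw [hone (cv (z j).1), hone (cv (z (ν + (2 ^ (n + 1) - 1))).1)] at m2
    rw [hone (cv (z ν).1), hone (cv (z (ν + (2 ^ (n + 1) - 1))).1)]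
    simp only [Pi.sub_apply, Pi.add_apply] at ha hb
    set u := cv (z j).1 0 with hu
    set v := cv (z i).1 0 with hv
    have key : 2 * (|v| * e) < (|u| - |v|) * e ∨ |u| ≤ |v| := by
      rcases le_total (|u|) (|v|) with h | h
      · exact Or.inr h
      · left
        rcases le_total 0 u with hu0 | hu0 <;> rcases le_total 0 v with hv0 | hv0
        · rw [abs_of_nonneg hu0, abs_of_nonneg hv0] at h ⊢
          rw [abs_of_nonneg hv0, abs_of_nonneg (by linarith)] at ha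
          exact ha
        · rw [abs_of_nonneg hu0, abs_of_nonpos hv0] at h ⊢
          rw [abs_of_nonpos hv0, abs_of_nonneg (by linarith)] at hb
          linarith
        · rw [abs_of_nonpos hu0, abs_of_nonneg hv0] at h ⊢
          rw [abs_of_nonneg hv0, abs_of_nonpos (by linarith)] at hb
          linarith
        · rw [abs_of_nonpos hu0, abs_of_nonpos hv0] at h ⊢
          rw [abs_of_nonpos hv0, abs_of_nonpos (by linarith)] at ha
          linarith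
    have hlt := hz.2.1 i j (by omega) hij
    rw [hone, hone (cv (z j).1)] at hlt
    rcases key with h | h
    · nlinarith
    · exfalso
      have := mul_le_mul_of_nonneg_right h he0
      linarith
  · intro hsup
    obtain rfl : N1 = fun x => ‖x‖ := funext hsup
    obtain ⟨k, rfl⟩ : ∃ k, m = k + 1 := ⟨m - 1, by omega⟩
    rw [Nat.add_sub_cancel]
    apply g_ge h1 _ _ 2 (by norm_num)
    · intro Θ z hz ν hν
      exact (stepSup h1 h2 z hz.1 hz.2.1 ν hν).le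
    · exact Nat.one_le_iff_ne_zero.2 (Nat.mul_ne_zero (by positivity) (by omega))

end Pool.Agent.Results.MP_7453a1_nt.AllDimensions
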